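import Pool.Agent.Run7.h54.GS.Alg
import Pool.Agent.Run7.h54.GS.Grp

set_option autoImplicit false

/-!
The generic countably infinite group has a semiprimitive rational group algebra.

The space of enumerated groups is the set of all multiplications `m : ℕ × ℕ → ℕ` of group
structures on `ℕ`, with the topology of pointwise convergence.  We show that for comeagrely many
`m` the Jacobson radical of the rational group algebra is zero.
-/

namespace Pool.Agent.Results.MP_146d92_al.GenericSemiprimitive

open Pool.Agent.Run7.h54.GS Topology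

/-- `m` is the multiplication of a group structure on the set of natural numbers. -/
def IsGroupMul (m : ℕ × ℕ → ℕ) : Prop := ∃ G : Group ℕ, ∀ a b : ℕ, G.mul a b = m (a, b)

/-- The space of enumerated groups: a subspace of the product of copies of the discrete
space `ℕ` indexed by the pairs of natural numbers. -/
abbrev EnumGroups : Type := {m : ℕ × ℕ → ℕ // IsGroupMul m}

/-- The universe `ℕ` of the enumerated group `m`. -/
def Car (_m : EnumGroups) : Type := ℕ

/-- The group with multiplication `m`. -/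
noncomputable instance (m : EnumGroups) : Group (Car m) := Classical.choose m.2

theorem mul_eq (m : EnumGroups) (a b : Car m) : a * b = m.1 (a, b) :=
  Classical.choose_spec m.2 a b

/-- A natural number as an element of the group. -/
def toCar (m : EnumGroups) (n : ℕ) : Car m := n

theorem toCar_mul (m : EnumGroups) (a b : ℕ) : toCar m a * toCar m b = toCar m (m.1 (a, b)) :=
  mul_eq m a b

/-- The open set attached to a finite set. -/
def U (F : Finset ℕ) : Set EnumGroups :=
  {m | ∃ a b c d : ℕ, (∀ g ∈ F, m.1 (g, a) = m.1 (a, g)) ∧ (∀ g ∈ F, m.1 (g, b) = m.1 (b, g)) ∧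
    m.1 (a, a) = d ∧ m.1 (b, a) = m.1 (d, b) ∧ m.1 (c, a) = m.1 (b, c) ∧ d ≠ a}

theorem cont (p : ℕ × ℕ) : Continuous fun m : EnumGroups => m.1 p :=
  (continuous_apply p).comp continuous_subtype_val

theorem isOpen_eq' (p q : ℕ × ℕ) : IsOpen {m : EnumGroups | m.1 p = m.1 q} := by
  have h : IsOpen ((fun m : EnumGroups => (m.1 p, m.1 q)) ⁻¹' {x : ℕ × ℕ | x.1 = x.2}) :=
    (isOpen_discrete _).preimage ((cont p).prodMk (cont q))
  exact h

theorem isOpen_U (F : Finset ℕ) : IsOpen (U F) := by
  have h : U F = ⋃ a : ℕ, ⋃ b : ℕ, ⋃ c : ℕ, ⋃ d : ℕ,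
      ((⋂ g ∈ F, {m : EnumGroups | m.1 (g, a) = m.1 (a, g)}) ∩
      ((⋂ g ∈ F, {m : EnumGroups | m.1 (g, b) = m.1 (b, g)}) ∩
      ({m : EnumGroups | m.1 (a, a) = d} ∩ ({m : EnumGroups | m.1 (b, a) = m.1 (d, b)} ∩
      ({m : EnumGroups | m.1 (c, a) = m.1 (b, c)} ∩ {_m : EnumGroups | d ≠ a}))))) := by
    ext m
    simp only [U, Set.mem_iUnion, Set.mem_inter_iff, Set.mem_iInter]
    exact Iff.rfl
  rw [h]
  refine isOpen_iUnion fun a => isOpen_iUnion fun b => isOpen_iUnion fun c =>
    isOpen_iUnion fun d => ?_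
  refine IsOpen.inter ?_ (IsOpen.inter ?_ (IsOpen.inter ?_ (IsOpen.inter ?_ (IsOpen.inter ?_ ?_))))
  · exact isOpen_biInter_finset fun g _ => isOpen_eq' _ _
  · exact isOpen_biInter_finset fun g _ => isOpen_eq' _ _
  · exact (isOpen_discrete {d}).preimage (cont (a, a))
  · exact isOpen_eq' _ _
  · exact isOpen_eq' _ _
  · exact isOpen_const

theorem dense_U (F : Finset ℕ) : Dense (U F) := by
  classical
  rw [dense_iff_inter_open]
  rintro V hV ⟨m, hm⟩
  obtain ⟨W, hW, rfl⟩ := hV
  obtain ⟨I, u, hu, hsub⟩ := isOpen_pi_iff.mp hW m.1 hm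
  obtain ⟨K, hK, hKc, a, b, c, h1, h2, h3⟩ := exists_countable
  -- the finite set of relevant numbers
  let F' : Finset ℕ := F ∪ (I.image Prod.fst ∪ (I.image Prod.snd ∪ I.image m.1))
  -- the larger group
  have hCc : Countable (Car m) := inferInstanceAs (Countable ℕ)
  have hCi : Infinite (Car m) := inferInstanceAs (Infinite ℕ)
  have hQc : Countable (Car m × K) := inferInstance
  have hne : Nonempty K := ⟨1⟩
  have hQi : Infinite (Car m × K) := inferInstance
  let f : (F' : Set ℕ) ↪ (Car m × K) :=
    ⟨fun n => (toCar m n.1, 1), fun x y h => Subtype.ext (congrArg Prod.fst h)⟩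
  have hlt : Cardinal.mk (F' : Set ℕ) < Cardinal.mk ℕ := by
    rw [Cardinal.mk_nat]
    exact Cardinal.lt_aleph0_of_finite _
  obtain ⟨e, he⟩ := Cardinal.extend_function_of_lt f hlt nonempty_equiv_of_countable
  have he' : ∀ n ∈ F', e n = (toCar m n, (1 : K)) := fun n hn => he ⟨n, hn⟩
  -- the transported group
  let m' : EnumGroups := ⟨fun p => e.symm (e p.1 * e p.2), ⟨e.group, fun x y => rfl⟩⟩
  have hm' : ∀ x y : ℕ, e (m'.1 (x, y)) = e x * e y := fun x y => e.apply_symm_apply _
  refine ⟨m', ?_, ?_⟩
  · apply hsub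
    intro p hp
    have e1 : m'.1 p = m.1 p := by
      apply e.injective
      have hp1 : p.1 ∈ F' := by
        simp only [F', Finset.mem_union, Finset.mem_image]
        exact Or.inr (Or.inl ⟨p, hp, rfl⟩)
      have hp2 : p.2 ∈ F' := by
        simp only [F', Finset.mem_union, Finset.mem_image]
        exact Or.inr (Or.inr (Or.inl ⟨p, hp, rfl⟩))
      have hp3 : m.1 p ∈ F' := by
        simp only [F', Finset.mem_union, Finset.mem_image]
        exact Or.inr (Or.inr (Or.inr ⟨p, hp, rfl⟩))
      have e2 := hm' p.1 p.2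
      rw [Prod.mk.eta] at e2
      rw [e2, he' _ hp1, he' _ hp2, he' _ hp3, Prod.mk_mul_mk, mul_one, toCar_mul, Prod.mk.eta]
    rw [e1]
    exact (hu p hp).2
  · have hF : ∀ g ∈ F, e g = (toCar m g, (1 : K)) := fun g hg =>
      he' g (Finset.mem_union_left _ hg)
    refine ⟨e.symm (1, a), e.symm (1, b), e.symm (1, c), e.symm (1, a * a), ?_, ?_, ?_, ?_, ?_, ?_⟩
    · intro g hg
      apply e.injective
      rw [hm', hm', hF g hg, Equiv.apply_symm_apply, Prod.mk_mul_mk, Prod.mk_mul_mk, mul_one,
        one_mul, mul_one, one_mul]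
    · intro g hg
      apply e.injective
      rw [hm', hm', hF g hg, Equiv.apply_symm_apply, Prod.mk_mul_mk, Prod.mk_mul_mk, mul_one,
        one_mul, mul_one, one_mul]
    · apply e.injective
      rw [hm', Equiv.apply_symm_apply, Equiv.apply_symm_apply, Prod.mk_mul_mk, mul_one]
    · apply e.injective
      rw [hm', hm', Equiv.apply_symm_apply, Equiv.apply_symm_apply, Equiv.apply_symm_apply,
        Prod.mk_mul_mk, Prod.mk_mul_mk, mul_one, h1]
    · apply e.injective
      rw [hm', hm', Equiv.apply_symm_apply, Equiv.apply_symm_apply, Equiv.apply_symm_apply,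
        Prod.mk_mul_mk, Prod.mk_mul_mk, mul_one, h2]
    · intro h
      have h4 := congrArg Prod.snd (e.symm.injective h)
      exact h3 (mul_eq_left.mp h4)

theorem good_of_mem (m : EnumGroups) (hm : ∀ F : Finset ℕ, m ∈ U F) :
    Ring.jacobson (MonoidAlgebra ℚ (Car m)) = ⊥ := by
  apply jacobson_eq_bot
  intro F
  obtain ⟨a, b, c, d, ha, hb, h1, h2, h3, h4⟩ := hm F
  have e1 : toCar m b * toCar m a = toCar m a * toCar m a * toCar m b := by
    rw [toCar_mul, toCar_mul, toCar_mul, h1, h2]
  have e2 : toCar m c * toCar m a = toCar m b * toCar m c := by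
    rw [toCar_mul, toCar_mul, h3]
  have e3 : toCar m a ≠ 1 := by
    intro h
    apply h4
    have h5 : toCar m a * toCar m a = toCar m a := by rw [h, mul_one]
    rw [toCar_mul, h1] at h5
    exact h5
  obtain ⟨h5, h6⟩ := forced e1 e2 e3 F
    (fun g hg => by rw [mul_eq, mul_eq]; exact ha g hg)
    (fun g hg => by rw [mul_eq, mul_eq]; exact hb g hg)
  exact ⟨toCar m a, h5, h6⟩

/-- For the generic enumerated group the rational group algebra has zero Jacobson radical. -/
theorem _root_.Pool.Agent.Results.MP_146d92_al.GenericSemiprimitive.result :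
    {m : EnumGroups | Ring.jacobson (MonoidAlgebra ℚ (Car m)) = ⊥} ∈ residual EnumGroups := by
  have h : ∀ᶠ m in residual EnumGroups, ∀ F : Finset ℕ, m ∈ U F := by
    rw [eventually_countable_forall]
    intro F
    exact residual_of_dense_open (isOpen_U F) (dense_U F)
  exact Filter.mem_of_superset h fun m hm => good_of_mem m hm

end Pool.Agent.Results.MP_146d92_al.GenericSemiprimitive
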